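import Pool.Agent.W_7d29a1_21z.Windows

/-!
# Closing of `nu > 1/2`: from the window theorem and the relative strict Newman - Piza bound

`w s : ℕ → ℝ` (widths and energies).  `WinThm w s` is the window theorem: on every long window of
scales `[2^a, 2^(a+Λ)]` on which `log w` and `log s` are `ε`-linear with slopes `ν`, `χ`,
`2 χ ≤ ν + δ` or `(1 - ν)² - δ ≤ 2 χ (ν - χ)`.  With `c (n/m)^(1+c) w_m s_m² ≤ w_n s_n²` we get
`w_n ≥ c' (n/m)^(1/2 + c') w_m`.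
-/

namespace Pool.Agent.W_7d29a1_21z

open Finset

/-- the window theorem (base 2 logarithms, window `[2^a, 2^(a+Λ)]`) -/
def WinThm (w s : ℕ → ℝ) : Prop :=
  ∀ δ : ℝ, 0 < δ → ∃ ε : ℝ, 0 < ε ∧ ∃ Λ₀ : ℕ, ∀ Λ : ℕ, Λ₀ ≤ Λ → ∃ a₀ : ℕ, ∀ a : ℕ, a₀ ≤ a →
    ∀ ν χ : ℝ,
      (∀ t : ℕ, t ≤ Λ → |Real.logb 2 (w (2 ^ (a + t))) - Real.logb 2 (w (2 ^ a)) - ν * t|
        ≤ ε * Λ) →
      (∀ t : ℕ, t ≤ Λ → |Real.logb 2 (s (2 ^ (a + t))) - Real.logb 2 (s (2 ^ a)) - χ * t|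
        ≤ ε * Λ) →
      2 * χ ≤ ν + δ ∨ (1 - ν) ^ 2 - δ ≤ 2 * χ * (ν - χ)

/-- abstract closing on `ℕ` (log scale) -/
theorem closing_log (f g : ℕ → ℝ) (L : ℝ) (t₀ : ℕ) (hL : 0 ≤ L) (hf : LipFrom f L t₀)
    (hg : LipFrom g L t₀) (c C₀ : ℝ) (hc : 0 < c)
    (hNP : ∀ s t : ℕ, t₀ ≤ s → s ≤ t →
      (1 + c) * ((t : ℝ) - (s : ℝ)) - C₀ ≤ (f t - f s) + 2 * (g t - g s))
    (hW : ∀ δ : ℝ, 0 < δ → ∃ ε : ℝ, 0 < ε ∧ ∃ Λ₀ : ℕ, ∀ Λ : ℕ, Λ₀ ≤ Λ → ∃ a₀ : ℕ,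
      ∀ a : ℕ, a₀ ≤ a → ∀ ν χ : ℝ,
        (∀ t : ℕ, t ≤ Λ → |f (a + t) - f a - ν * t| ≤ ε * Λ) →
        (∀ t : ℕ, t ≤ Λ → |g (a + t) - g a - χ * t| ≤ ε * Λ) →
        2 * χ ≤ ν + δ ∨ (1 - ν) ^ 2 - δ ≤ 2 * χ * (ν - χ)) :
    ∃ c' : ℝ, 0 < c' ∧ ∃ t₁ : ℕ, ∃ C : ℝ, ∀ s t : ℕ, t₁ ≤ s → s ≤ t →
      (1 / 2 + c') * ((t : ℝ) - (s : ℝ)) - C ≤ f t - f s := by
  set c₁ : ℝ := min c (1 / 100) with hc₁
  have hc₁0 : 0 < c₁ := lt_min hc (by norm_num)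
  have hc₁c : c₁ ≤ c := min_le_left _ _
  have hc₁1 : c₁ ≤ 1 / 100 := min_le_right _ _
  obtain ⟨ε, hε, Λ₀, hΛ₀⟩ := hW (c₁ / 4) (by positivity)
  set θ : ℝ := 1 / 2 + c₁ / 4 with hθ
  -- choose the length so large that the constant of NP is absorbed
  obtain ⟨Λ₁, hΛ₁⟩ : ∃ Λ₁ : ℕ, C₀ / (c₁ / 8) < Λ₁ := exists_nat_gt _
  have hwin : ∃ Λ₂ : ℕ, ∀ Λ : ℕ, Λ₂ ≤ Λ → ∃ a₀ : ℕ, ∀ a : ℕ, a₀ ≤ a →
      EpsLin f ε a Λ → EpsLin g ε a Λ → θ * (Λ : ℝ) ≤ f (a + Λ) - f a := by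
    refine ⟨Λ₀ + Λ₁ + 1, fun Λ hΛ => ?_⟩
    obtain ⟨a₀, ha₀⟩ := hΛ₀ Λ (by omega)
    refine ⟨a₀ + t₀, fun a ha hfl hgl => ?_⟩
    have hΛpos : (0 : ℝ) < Λ := by
      have : 0 < Λ := by omega
      exact_mod_cast this
    have hΛ₁' : (Λ₁ : ℝ) ≤ Λ := by
      have : Λ₁ ≤ Λ := by omega
      exact_mod_cast this
    set ν : ℝ := (f (a + Λ) - f a) / Λ with hν
    set χ : ℝ := (g (a + Λ) - g a) / Λ with hχ
    have hνΛ : f (a + Λ) - f a = ν * Λ := by rw [hν]; field_simp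
    have hχΛ : g (a + Λ) - g a = χ * Λ := by rw [hχ]; field_simp
    have h1 := ha₀ a (by omega) ν χ
      (fun t ht => by
        have := hfl t ht
        have e : (f (a + Λ) - f a) * ((t : ℝ) / (Λ : ℝ)) = ν * t := by rw [hν]; ring
        rwa [e] at this)
      (fun t ht => by
        have := hgl t ht
        have e : (g (a + Λ) - g a) * ((t : ℝ) / (Λ : ℝ)) = χ * t := by rw [hχ]; ring
        rwa [e] at this)
    have h2 := hNP a (a + Λ) (by omega) (by omega)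
    have h3 : (((a + Λ : ℕ) : ℝ) - ((a : ℕ) : ℝ)) = Λ := by push_cast; ring
    rw [h3, hνΛ, hχΛ] at h2
    have hC : C₀ ≤ c₁ / 8 * Λ := by
      rw [div_lt_iff₀ (by positivity)] at hΛ₁
      nlinarith
    have h4 : 1 + 7 / 8 * c₁ ≤ ν + 2 * χ := by
      have : (1 + 7 / 8 * c₁) * Λ ≤ (ν + 2 * χ) * Λ := by nlinarith
      exact le_of_mul_le_mul_right this hΛpos
    rw [hνΛ]
    by_contra hcon
    push Not at hcon
    have hν' : ν < θ := lt_of_mul_lt_mul_right hcon hΛpos.le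
    rcases h1 with h1 | h1
    · rw [hθ] at hν'
      linarith
    · rw [hθ] at hν'
      have hA : 2 * χ * (ν - χ) ≤ ν ^ 2 / 2 := by nlinarith [sq_nonneg (2 * χ - ν)]
      have hν1 : ν < 1 / 2 + 1 / 400 := by linarith
      nlinarith
  obtain ⟨t₁, C, hC⟩ := windows f g L t₀ hL hf hg ε θ hε hwin (c₁ / 8) (by positivity)
  refine ⟨c₁ / 8, by positivity, t₁, C, fun s t hs hst => ?_⟩
  have h := hC s t hs hst
  have : θ - c₁ / 8 = 1 / 2 + c₁ / 8 := by rw [hθ]; ring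
  rwa [this] at h

/-- two-sided regularity gives the Lipschitz property on the log scale -/
lemma lip_of_reg (w : ℕ → ℝ) (C : ℝ) (n₁ : ℕ) (hC : 1 ≤ C)
    (hpos : ∀ n, n₁ ≤ n → 0 < w n)
    (hreg : ∀ m n : ℕ, n₁ ≤ m → m ≤ n → w m ≤ C * w n ∧ w n ≤ C * ((n : ℝ) / m) * w m) :
    LipFrom (fun k => Real.logb 2 (w (2 ^ k))) (1 + Real.logb 2 C) n₁ := by
  have hC0 : 0 ≤ Real.logb 2 C := Real.logb_nonneg (by norm_num) hC
  intro s t hs hst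
  have h2s : n₁ ≤ 2 ^ s := le_trans hs (Nat.lt_two_pow_self).le
  have h2st : 2 ^ s ≤ 2 ^ t := Nat.pow_le_pow_right (by norm_num) hst
  have hws := hpos _ h2s
  have hwt := hpos _ (le_trans h2s h2st)
  obtain ⟨h1, h2⟩ := hreg _ _ h2s h2st
  have hst' : (s : ℝ) ≤ t := by exact_mod_cast hst
  have hCpos : 0 < C := by linarith
  have e1 : Real.logb 2 (w (2 ^ s)) ≤ Real.logb 2 C + Real.logb 2 (w (2 ^ t)) := by
    rw [← Real.logb_mul hCpos.ne' hwt.ne']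
    exact Real.logb_le_logb_of_le (by norm_num) hws h1
  have e2 : Real.logb 2 (w (2 ^ t)) ≤ Real.logb 2 C + ((t : ℝ) - s) + Real.logb 2 (w (2 ^ s)) := by
    have h3 : Real.logb 2 (w (2 ^ t)) ≤ Real.logb 2 (C * (((2 ^ t : ℕ) : ℝ) / ((2 ^ s : ℕ) : ℝ))
        * w (2 ^ s)) := Real.logb_le_logb_of_le (by norm_num) hwt h2
    have hpt : (0 : ℝ) < ((2 ^ t : ℕ) : ℝ) := by positivity
    have hps : (0 : ℝ) < ((2 ^ s : ℕ) : ℝ) := by positivity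
    rw [Real.logb_mul (by positivity) hws.ne', Real.logb_mul hCpos.ne' (by positivity),
      Real.logb_div hpt.ne' hps.ne'] at h3
    have l1 : ∀ k : ℕ, Real.logb 2 ((2 ^ k : ℕ) : ℝ) = k := by
      intro k
      push_cast
      rw [Real.logb_pow, Real.logb_self_eq_one (by norm_num)]
      ring
    rw [l1, l1] at h3
    exact h3
  rw [abs_le]
  constructor <;> nlinarith

/-- **Closing theorem**: superdiffusivity from the window theorem. -/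
theorem closing (w s : ℕ → ℝ) (n₁ : ℕ) (C c : ℝ) (hC : 1 ≤ C) (hc : 0 < c)
    (hwpos : ∀ n, n₁ ≤ n → 0 < w n) (hspos : ∀ n, n₁ ≤ n → 0 < s n)
    (hw : ∀ m n : ℕ, n₁ ≤ m → m ≤ n → w m ≤ C * w n ∧ w n ≤ C * ((n : ℝ) / m) * w m)
    (hs : ∀ m n : ℕ, n₁ ≤ m → m ≤ n → s m ≤ C * s n ∧ s n ≤ C * ((n : ℝ) / m) * s m)
    (hNP : ∀ m n : ℕ, n₁ ≤ m → m ≤ n →
      c * ((n : ℝ) / m) ^ (1 + c) * (w m * s m ^ 2) ≤ w n * s n ^ 2)
    (hW : WinThm w s) :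
    ∃ c' : ℝ, 0 < c' ∧ ∃ c'' : ℝ, 0 < c'' ∧ ∃ n₂ : ℕ, ∀ m n : ℕ, n₂ ≤ m → m ≤ n →
      c'' * ((n : ℝ) / m) ^ (1 / 2 + c') * w m ≤ w n := by
  have hC0 : 0 ≤ Real.logb 2 C := Real.logb_nonneg (by norm_num) hC
  have hCpos : 0 < C := by linarith
  have l1 : ∀ k : ℕ, Real.logb 2 ((2 ^ k : ℕ) : ℝ) = k := by
    intro k
    push_cast
    rw [Real.logb_pow, Real.logb_self_eq_one (by norm_num)]
    ring
  have hf := lip_of_reg w C n₁ hC hwpos hw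
  have hg := lip_of_reg s C n₁ hC hspos hs
  have hNP' : ∀ s' t : ℕ, n₁ ≤ s' → s' ≤ t →
      (1 + c) * ((t : ℝ) - (s' : ℝ)) - (-Real.logb 2 c)
        ≤ (Real.logb 2 (w (2 ^ t)) - Real.logb 2 (w (2 ^ s')))
          + 2 * (Real.logb 2 (s (2 ^ t)) - Real.logb 2 (s (2 ^ s'))) := by
    intro s' t hs' hst
    have h2s : n₁ ≤ 2 ^ s' := le_trans hs' (Nat.lt_two_pow_self).le
    have h2st : 2 ^ s' ≤ 2 ^ t := Nat.pow_le_pow_right (by norm_num) hst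
    have hws := hwpos _ h2s
    have hwt := hwpos _ (le_trans h2s h2st)
    have hss := hspos _ h2s
    have hstt := hspos _ (le_trans h2s h2st)
    have h := hNP _ _ h2s h2st
    have hpt : (0 : ℝ) < ((2 ^ t : ℕ) : ℝ) := by positivity
    have hps : (0 : ℝ) < ((2 ^ s' : ℕ) : ℝ) := by positivity
    have hlhs : 0 < c * (((2 ^ t : ℕ) : ℝ) / ((2 ^ s' : ℕ) : ℝ)) ^ (1 + c)
        * (w (2 ^ s') * s (2 ^ s') ^ 2) := by positivity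
    have h3 := Real.logb_le_logb_of_le (b := 2) (by norm_num) hlhs h
    rw [Real.logb_mul (by positivity) (by positivity), Real.logb_mul hc.ne' (by positivity),
      Real.logb_rpow_eq_mul_logb_of_pos (by positivity), Real.logb_div hpt.ne' hps.ne',
      Real.logb_mul hws.ne' (by positivity), Real.logb_mul hwt.ne' (by positivity),
      Real.logb_pow, Real.logb_pow, l1, l1] at h3
    push_cast at h3
    linarith
  have hWl : ∀ δ : ℝ, 0 < δ → ∃ ε : ℝ, 0 < ε ∧ ∃ Λ₀ : ℕ, ∀ Λ : ℕ, Λ₀ ≤ Λ → ∃ a₀ : ℕ,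
      ∀ a : ℕ, a₀ ≤ a → ∀ ν χ : ℝ,
        (∀ t : ℕ, t ≤ Λ → |(fun k => Real.logb 2 (w (2 ^ k))) (a + t)
          - (fun k => Real.logb 2 (w (2 ^ k))) a - ν * t| ≤ ε * Λ) →
        (∀ t : ℕ, t ≤ Λ → |(fun k => Real.logb 2 (s (2 ^ k))) (a + t)
          - (fun k => Real.logb 2 (s (2 ^ k))) a - χ * t| ≤ ε * Λ) →
        2 * χ ≤ ν + δ ∨ (1 - ν) ^ 2 - δ ≤ 2 * χ * (ν - χ) := hW
  obtain ⟨c', hc', t₁, K, hK⟩ := closing_log (fun k => Real.logb 2 (w (2 ^ k)))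
    (fun k => Real.logb 2 (s (2 ^ k))) (1 + Real.logb 2 C) n₁ (by linarith) hf hg c
    (-Real.logb 2 c) hc hNP' hWl
  -- from dyadic to all `m ≤ n`
  refine ⟨c', hc', (2 : ℝ) ^ (-K - (1 / 2 + c')) / (4 * C ^ 2), by positivity,
    n₁ + 2 ^ (t₁ + n₁ + 1), ?_⟩
  intro m n hm hmn
  have hm0 : 0 < m := lt_of_lt_of_le (by positivity) hm
  have hmn' : (m : ℝ) ≤ n := by exact_mod_cast hmn
  have hmR : (0 : ℝ) < m := by exact_mod_cast hm0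
  have hnR : (0 : ℝ) < n := lt_of_lt_of_le hmR hmn'
  set i := Nat.log 2 m with hi
  set j := Nat.log 2 n with hj
  have him : 2 ^ i ≤ m := Nat.pow_log_le_self 2 hm0.ne'
  have him' : m < 2 ^ (i + 1) := Nat.lt_pow_succ_log_self (by norm_num) m
  have hjn : 2 ^ j ≤ n := Nat.pow_log_le_self 2 (by omega)
  have hjn' : n < 2 ^ (j + 1) := Nat.lt_pow_succ_log_self (by norm_num) n
  have hij : i ≤ j := Nat.log_mono_right hmn
  have hti : t₁ + n₁ + 1 ≤ i := by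
    by_contra hcon
    push Not at hcon
    have : 2 ^ (i + 1) ≤ 2 ^ (t₁ + n₁ + 1) := Nat.pow_le_pow_right (by norm_num) (by omega)
    omega
  have h2i : n₁ ≤ 2 ^ i := le_trans (by omega) (Nat.lt_two_pow_self (n := i)).le
  have h2ij : 2 ^ i ≤ 2 ^ j := Nat.pow_le_pow_right (by norm_num) hij
  have hwi := hwpos _ h2i
  have hwj := hwpos _ (le_trans h2i h2ij)
  have hwm := hwpos m (le_trans h2i him)
  have hwn := hwpos n (le_trans (le_trans h2i him) hmn)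
  -- dyadic inequality
  have hd := hK i j (by omega) hij
  have hd2 : (2 : ℝ) ^ (-K) * (2 : ℝ) ^ ((1 / 2 + c') * ((j : ℝ) - i)) * w (2 ^ i) ≤ w (2 ^ j) := by
    have h1 : Real.logb 2 ((2 : ℝ) ^ (-K) * (2 : ℝ) ^ ((1 / 2 + c') * ((j : ℝ) - i)) * w (2 ^ i))
        ≤ Real.logb 2 (w (2 ^ j)) := by
      rw [Real.logb_mul (by positivity) hwi.ne', Real.logb_mul (by positivity) (by positivity),
        Real.logb_rpow (by norm_num) (by norm_num), Real.logb_rpow (by norm_num) (by norm_num)]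
      linarith
    exact (Real.logb_le_logb (by norm_num) (by positivity) hwj).1 h1
  -- compare `n/m` with `2^(j-i)`
  have hratio : ((n : ℝ) / m) ≤ (2 : ℝ) ^ ((j : ℝ) - i + 1) := by
    have h1 : (n : ℝ) ≤ (2 : ℝ) ^ ((j : ℝ) + 1) := by
      have : (n : ℝ) ≤ ((2 ^ (j + 1) : ℕ) : ℝ) := by exact_mod_cast hjn'.le
      calc (n : ℝ) ≤ ((2 ^ (j + 1) : ℕ) : ℝ) := this
        _ = (2 : ℝ) ^ ((j : ℝ) + 1) := by
          push_cast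
          rw [← Nat.cast_succ, Real.rpow_natCast]
    have h2 : (2 : ℝ) ^ (i : ℝ) ≤ m := by
      have : ((2 ^ i : ℕ) : ℝ) ≤ m := by exact_mod_cast him
      calc (2 : ℝ) ^ (i : ℝ) = ((2 ^ i : ℕ) : ℝ) := by
            push_cast; rw [Real.rpow_natCast]
        _ ≤ _ := this
    calc (n : ℝ) / m ≤ (2 : ℝ) ^ ((j : ℝ) + 1) / (2 : ℝ) ^ (i : ℝ) :=
          div_le_div₀ (by positivity) h1 (by positivity) h2
      _ = (2 : ℝ) ^ ((j : ℝ) - i + 1) := by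
          rw [← Real.rpow_sub (by norm_num)]; congr 1; ring
  have hpow : ((n : ℝ) / m) ^ (1 / 2 + c') ≤ (2 : ℝ) ^ ((1 / 2 + c') * ((j : ℝ) - i))
      * (2 : ℝ) ^ (1 / 2 + c') := by
    calc ((n : ℝ) / m) ^ (1 / 2 + c') ≤ ((2 : ℝ) ^ ((j : ℝ) - i + 1)) ^ (1 / 2 + c') :=
          Real.rpow_le_rpow (by positivity) hratio (by positivity)
      _ = _ := by
          rw [← Real.rpow_mul (by norm_num), ← Real.rpow_add (by norm_num)]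
          congr 1; ring
  -- `w m ≤ 2 C w (2^i)` and `w (2^j) ≤ C w n`
  have hwm' : w m ≤ 2 * C * w (2 ^ i) := by
    have h1 := (hw (2 ^ i) m h2i him).2
    have h2 : ((m : ℝ) / ((2 ^ i : ℕ) : ℝ)) ≤ 2 := by
      rw [div_le_iff₀ (by positivity)]
      have : (m : ℝ) ≤ ((2 ^ (i + 1) : ℕ) : ℝ) := by exact_mod_cast him'.le
      calc (m : ℝ) ≤ ((2 ^ (i + 1) : ℕ) : ℝ) := this
        _ = _ := by push_cast; ring
    calc w m ≤ C * ((m : ℝ) / ((2 ^ i : ℕ) : ℝ)) * w (2 ^ i) := h1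
      _ ≤ C * 2 * w (2 ^ i) := by gcongr
      _ = _ := by ring
  have hwn' : w (2 ^ j) ≤ C * w n := (hw (2 ^ j) n (le_trans h2i h2ij) hjn).1
  have hsplit : (2 : ℝ) ^ (-K - (1 / 2 + c')) * (2 : ℝ) ^ (1 / 2 + c') = (2 : ℝ) ^ (-K) := by
    rw [← Real.rpow_add (by norm_num)]; congr 1; ring
  have hfin : (2 : ℝ) ^ (-K - (1 / 2 + c')) * ((n : ℝ) / m) ^ (1 / 2 + c') * w m
      ≤ 2 * C ^ 2 * w n := by
    calc (2 : ℝ) ^ (-K - (1 / 2 + c')) * ((n : ℝ) / m) ^ (1 / 2 + c') * w m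
        ≤ (2 : ℝ) ^ (-K - (1 / 2 + c')) * ((2 : ℝ) ^ ((1 / 2 + c') * ((j : ℝ) - i))
      * (2 : ℝ) ^ (1 / 2 + c')) * (2 * C * w (2 ^ i)) := by gcongr
      _ = 2 * C * (((2 : ℝ) ^ (-K - (1 / 2 + c')) * (2 : ℝ) ^ (1 / 2 + c'))
          * (2 : ℝ) ^ ((1 / 2 + c') * ((j : ℝ) - i)) * w (2 ^ i)) := by ring
      _ = 2 * C * ((2 : ℝ) ^ (-K) * (2 : ℝ) ^ ((1 / 2 + c') * ((j : ℝ) - i)) * w (2 ^ i)) := by
          rw [hsplit]
      _ ≤ 2 * C * w (2 ^ j) := by gcongr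
      _ ≤ 2 * C * (C * w n) := by gcongr
      _ = _ := by ring
  have hC2 : 0 < 4 * C ^ 2 := by positivity
  calc (2 : ℝ) ^ (-K - (1 / 2 + c')) / (4 * C ^ 2) * ((n : ℝ) / m) ^ (1 / 2 + c') * w m
      = ((2 : ℝ) ^ (-K - (1 / 2 + c')) * ((n : ℝ) / m) ^ (1 / 2 + c') * w m) / (4 * C ^ 2) := by
        ring
    _ ≤ (2 * C ^ 2 * w n) / (4 * C ^ 2) := by gcongr
    _ = w n / 2 := by field_simp; ring
    _ ≤ w n := by linarith

end Pool.Agent.W_7d29a1_21z
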