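import Mathlib

/-!
# Almost linear windows of Lipschitz functions on `ℕ`

`f, g : ℕ → ℝ` with `|f t - f s| ≤ L (t - s) + L` for `t₀ ≤ s ≤ t`.  If on every long window
`[a, a + Λ]` on which both are `ε`-linear the increment of `f` is at least `θ Λ`, then
`f t - f s ≥ (θ - η) (t - s) - C`.  (Quantitative Rademacher theorem: the energies
`V q = ∑ (Δ f)² / ℓ_q` of the `B`-adic partitions increase and are bounded.)
-/

namespace Pool.Agent.W_7d29a1_21z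

open Finset

/-- `f` is `ε`-linear on the window `[a, a + Λ]`. -/
def EpsLin (f : ℕ → ℝ) (ε : ℝ) (a Λ : ℕ) : Prop :=
  ∀ t : ℕ, t ≤ Λ → |f (a + t) - f a - (f (a + Λ) - f a) * ((t : ℝ) / (Λ : ℝ))| ≤ ε * (Λ : ℝ)

/-- `f` is Lipschitz at large distances from `t₀` on. -/
def LipFrom (f : ℕ → ℝ) (L : ℝ) (t₀ : ℕ) : Prop :=
  ∀ s t : ℕ, t₀ ≤ s → s ≤ t → |f t - f s| ≤ L * ((t : ℝ) - (s : ℝ)) + L

lemma sum_range_mul' (F : ℕ → ℝ) (B : ℕ) (m : ℕ) :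
    ∑ x ∈ range (m * B), F x = ∑ i ∈ range m, ∑ u ∈ range B, F (i * B + u) := by
  induction m with
  | zero => simp
  | succ m ih =>
    rw [Nat.succ_mul, Finset.sum_range_add, ih, Finset.sum_range_succ]

/-- variance identity -/
lemma var_id (x : ℕ → ℝ) (B : ℕ) (hB : 0 < B) :
    ∑ u ∈ range B, (x u - (∑ v ∈ range B, x v) / B) ^ 2
      = ∑ u ∈ range B, x u ^ 2 - (∑ v ∈ range B, x v) ^ 2 / B := by
  have hB' : (B : ℝ) ≠ 0 := by exact_mod_cast hB.ne'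
  set S := ∑ v ∈ range B, x v with hS
  have h1 : ∀ u ∈ range B, (x u - S / B) ^ 2 = x u ^ 2 - 2 * (S / B) * x u + (S / B) ^ 2 := by
    intro u _; ring
  rw [Finset.sum_congr rfl h1, Finset.sum_add_distrib, Finset.sum_sub_distrib, ← Finset.mul_sum,
    ← hS, Finset.sum_const, Finset.card_range, nsmul_eq_mul]
  field_simp
  ring

/-- partial sums of the centred increments -/
lemma partial_le (x : ℕ → ℝ) (B : ℕ) (k : ℕ) (hk : k ≤ B) :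
    (∑ u ∈ range k, (x u - (∑ v ∈ range B, x v) / B)) ^ 2
      ≤ B * ∑ u ∈ range B, (x u - (∑ v ∈ range B, x v) / B) ^ 2 := by
  have h1 := sq_sum_le_card_mul_sum_sq (s := range k)
    (f := fun u => x u - (∑ v ∈ range B, x v) / B)
  rw [Finset.card_range] at h1
  have h2 : ∑ u ∈ range k, (x u - (∑ v ∈ range B, x v) / B) ^ 2
      ≤ ∑ u ∈ range B, (x u - (∑ v ∈ range B, x v) / B) ^ 2 :=
    Finset.sum_le_sum_of_subset_of_nonneg (Finset.range_subset_range.2 hk)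
      (fun _ _ _ => sq_nonneg _)
  have h3 : (0 : ℝ) ≤ ∑ u ∈ range B, (x u - (∑ v ∈ range B, x v) / B) ^ 2 :=
    Finset.sum_nonneg fun _ _ => sq_nonneg _
  have h4 : (k : ℝ) ≤ B := by exact_mod_cast hk
  calc _ ≤ (k : ℝ) * ∑ u ∈ range k, (x u - (∑ v ∈ range B, x v) / B) ^ 2 := h1
    _ ≤ (k : ℝ) * ∑ u ∈ range B, (x u - (∑ v ∈ range B, x v) / B) ^ 2 :=
        mul_le_mul_of_nonneg_left h2 (Nat.cast_nonneg _)
    _ ≤ _ := mul_le_mul_of_nonneg_right h4 h3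

/-- defect of the window `[a, a + B ℓ]` with respect to its `B` parts -/
noncomputable def dfct (f : ℕ → ℝ) (B ℓ a : ℕ) : ℝ :=
  (∑ u ∈ range B, (f (a + (u + 1) * ℓ) - f (a + u * ℓ)) ^ 2) / ℓ
    - (f (a + B * ℓ) - f a) ^ 2 / (B * ℓ)

lemma sum_incr (f : ℕ → ℝ) (ℓ a : ℕ) (k : ℕ) :
    ∑ u ∈ range k, (f (a + (u + 1) * ℓ) - f (a + u * ℓ)) = f (a + k * ℓ) - f a := by
  have := Finset.sum_range_sub (fun u => f (a + u * ℓ)) k
  simpa using this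

lemma dfct_eq (f : ℕ → ℝ) (B ℓ a : ℕ) (hB : 0 < B) (hℓ : 0 < ℓ) :
    dfct f B ℓ a = (∑ u ∈ range B, ((f (a + (u + 1) * ℓ) - f (a + u * ℓ))
        - (∑ v ∈ range B, (f (a + (v + 1) * ℓ) - f (a + v * ℓ))) / B) ^ 2) / ℓ := by
  have hB' : (B : ℝ) ≠ 0 := by exact_mod_cast hB.ne'
  have hℓ' : (ℓ : ℝ) ≠ 0 := by exact_mod_cast hℓ.ne'
  rw [var_id (fun u => f (a + (u + 1) * ℓ) - f (a + u * ℓ)) B hB, dfct, sum_incr]
  field_simp

lemma dfct_nonneg (f : ℕ → ℝ) (B ℓ a : ℕ) (hB : 0 < B) (hℓ : 0 < ℓ) : 0 ≤ dfct f B ℓ a := by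
  rw [dfct_eq f B ℓ a hB hℓ]
  exact div_nonneg (Finset.sum_nonneg fun _ _ => sq_nonneg _) (Nat.cast_nonneg _)

/-- small defect implies `ε`-linear -/
lemma epsLin_of_dfct (f : ℕ → ℝ) (L : ℝ) (t₀ : ℕ) (hL : 0 ≤ L) (hf : LipFrom f L t₀)
    (ε : ℝ) (hε : 0 < ε) (B ℓ a : ℕ) (hB : 0 < B) (hℓ : 0 < ℓ) (ha : t₀ ≤ a)
    (hBε : 8 * L ≤ ε * B) (hd : dfct f B ℓ a ≤ (ε / 2) ^ 2 * (B * ℓ)) :
    EpsLin f ε a (B * ℓ) := by
  have hB' : (0 : ℝ) < B := by exact_mod_cast hB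
  have hℓ' : (0 : ℝ) < ℓ := by exact_mod_cast hℓ
  have hℓ1 : (1 : ℝ) ≤ ℓ := by exact_mod_cast hℓ
  intro t ht
  -- write `t = k ℓ + r`
  obtain ⟨k, r, hr, hkr⟩ : ∃ k r : ℕ, r < ℓ ∧ t = k * ℓ + r :=
    ⟨t / ℓ, t % ℓ, Nat.mod_lt _ hℓ, by rw [mul_comm]; exact (Nat.div_add_mod t ℓ).symm⟩
  have hkB : k ≤ B := by
    by_contra hcon
    push Not at hcon
    have : B * ℓ < k * ℓ := Nat.mul_lt_mul_of_pos_right hcon hℓ
    omega
  -- grid point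
  set S := f (a + B * ℓ) - f a with hS
  have hgrid : |f (a + k * ℓ) - f a - S * ((k : ℝ) / B)| ≤ ε / 2 * (B * ℓ) := by
    have h1 := partial_le (fun u => f (a + (u + 1) * ℓ) - f (a + u * ℓ)) B k hkB
    have h2 := dfct_eq f B ℓ a hB hℓ
    have h3 : ∑ u ∈ range B, ((f (a + (u + 1) * ℓ) - f (a + u * ℓ))
        - (∑ v ∈ range B, (f (a + (v + 1) * ℓ) - f (a + v * ℓ))) / B) ^ 2
          ≤ (ε / 2) ^ 2 * (B * ℓ) * ℓ := by
      rw [h2, div_le_iff₀ hℓ'] at hd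
      exact hd
    have h4 : ∑ u ∈ range k, ((f (a + (u + 1) * ℓ) - f (a + u * ℓ))
        - (∑ v ∈ range B, (f (a + (v + 1) * ℓ) - f (a + v * ℓ))) / B)
          = f (a + k * ℓ) - f a - S * ((k : ℝ) / B) := by
      rw [Finset.sum_sub_distrib, sum_incr, sum_incr, Finset.sum_const, Finset.card_range,
        nsmul_eq_mul]
      ring
    rw [h4] at h1
    have h5 : (f (a + k * ℓ) - f a - S * ((k : ℝ) / B)) ^ 2 ≤ (ε / 2 * (B * ℓ)) ^ 2 := by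
      calc _ ≤ (B : ℝ) * _ := h1
        _ ≤ (B : ℝ) * ((ε / 2) ^ 2 * (B * ℓ) * ℓ) := mul_le_mul_of_nonneg_left h3 hB'.le
        _ = _ := by ring
    exact abs_le_of_sq_le_sq h5 (by positivity)
  -- from the grid point to `t`
  have h6 : |f (a + t) - f (a + k * ℓ)| ≤ L * ℓ + L := by
    have h := hf (a + k * ℓ) (a + t) (by omega) (by omega)
    have h7 : (((a + t : ℕ) : ℝ) - ((a + k * ℓ : ℕ) : ℝ)) ≤ ℓ := by
      have : ((a + t : ℕ) : ℝ) = ((a + k * ℓ : ℕ) : ℝ) + r := by rw [hkr]; push_cast; ring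
      rw [this]
      have : (r : ℝ) ≤ ℓ := by exact_mod_cast hr.le
      linarith
    have h8 := mul_le_mul_of_nonneg_left h7 hL
    linarith
  have hSle : |S| ≤ L * (B * ℓ) + L := by
    have h := hf a (a + B * ℓ) ha (by omega)
    have h7 : (((a + B * ℓ : ℕ) : ℝ) - ((a : ℕ) : ℝ)) = B * ℓ := by push_cast; ring
    rw [h7] at h
    exact h
  have h9 : |S * ((k : ℝ) / B) - S * ((t : ℝ) / ((B * ℓ : ℕ) : ℝ))| ≤ 2 * L * ℓ := by
    have e1 : S * ((k : ℝ) / B) - S * ((t : ℝ) / ((B * ℓ : ℕ) : ℝ)) = - (S * (r / (B * ℓ))) := by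
      rw [hkr]
      push_cast
      field_simp
      ring
    rw [e1, abs_neg, abs_mul, abs_of_nonneg (by positivity : (0 : ℝ) ≤ (r : ℝ) / (B * ℓ))]
    have hr' : (r : ℝ) ≤ ℓ := by exact_mod_cast hr.le
    have hB1 : (1 : ℝ) ≤ B := by exact_mod_cast hB
    have hBl : (1 : ℝ) ≤ B * ℓ := by nlinarith
    calc |S| * (r / (B * ℓ)) ≤ (L * (B * ℓ) + L) * (ℓ / (B * ℓ)) := by
          apply mul_le_mul hSle _ (by positivity) (by positivity)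
          exact div_le_div_of_nonneg_right hr' (by positivity)
      _ ≤ (2 * L * (B * ℓ)) * (ℓ / (B * ℓ)) := by
          apply mul_le_mul_of_nonneg_right _ (by positivity)
          nlinarith
      _ = _ := by field_simp
  have h10 : L * ℓ + L ≤ 2 * L * ℓ := by nlinarith
  have h11 : 4 * L * ℓ ≤ ε / 2 * (B * ℓ) := by nlinarith
  have h12 : f (a + t) - f a - S * ((t : ℝ) / ((B * ℓ : ℕ) : ℝ))
      = (f (a + k * ℓ) - f a - S * ((k : ℝ) / B)) + (f (a + t) - f (a + k * ℓ))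
        + (S * ((k : ℝ) / B) - S * ((t : ℝ) / ((B * ℓ : ℕ) : ℝ))) := by ring
  have h13 : ε * ((B * ℓ : ℕ) : ℝ) = ε / 2 * (B * ℓ) + ε / 2 * (B * ℓ) := by push_cast; ring
  rw [h12, h13]
  calc _ ≤ |f (a + k * ℓ) - f a - S * ((k : ℝ) / B)| + |f (a + t) - f (a + k * ℓ)|
        + |S * ((k : ℝ) / B) - S * ((t : ℝ) / ((B * ℓ : ℕ) : ℝ))| := abs_add_three _ _ _
    _ ≤ _ := by linarith

/-- energy of the level `ℓ` partition of `[a, a + N ℓ]` -/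
noncomputable def enrg (f : ℕ → ℝ) (ℓ N a : ℕ) : ℝ :=
  ∑ i ∈ range N, (f (a + (i + 1) * ℓ) - f (a + i * ℓ)) ^ 2 / ℓ

lemma enrg_nonneg (f : ℕ → ℝ) (ℓ N a : ℕ) : 0 ≤ enrg f ℓ N a :=
  Finset.sum_nonneg fun _ _ => div_nonneg (sq_nonneg _) (Nat.cast_nonneg _)

/-- refinement: energy (finer) - energy (coarser) = sum of the defects -/
lemma enrg_refine (f : ℕ → ℝ) (B ℓ N a : ℕ) :
    enrg f ℓ (N * B) a - enrg f (B * ℓ) N a = ∑ i ∈ range N, dfct f B ℓ (a + i * (B * ℓ)) := by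
  unfold enrg dfct
  rw [sum_range_mul', ← Finset.sum_sub_distrib]
  refine Finset.sum_congr rfl fun i _ => ?_
  rw [Finset.sum_div]
  congr 1
  · refine Finset.sum_congr rfl fun u _ => ?_
    have e1 : a + (i * B + u + 1) * ℓ = a + i * (B * ℓ) + (u + 1) * ℓ := by ring
    have e2 : a + (i * B + u) * ℓ = a + i * (B * ℓ) + u * ℓ := by ring
    rw [e1, e2]
  · have e1 : a + (i + 1) * (B * ℓ) = a + i * (B * ℓ) + B * ℓ := by ring
    rw [e1]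
    push_cast
    ring

/-- one `B`-adic tower: some level has a small total defect -/
lemma exists_level (f g : ℕ → ℝ) (L : ℝ) (t₀ : ℕ) (hL : 0 ≤ L) (hf : LipFrom f L t₀)
    (hg : LipFrom g L t₀) (B ℓ₀ n a : ℕ) (hB : 0 < B) (hℓ : 0 < ℓ₀) (hn : 0 < n) (ha : t₀ ≤ a) :
    ∃ q : ℕ, q < n ∧
      ∑ i ∈ range (B ^ q), (dfct f B (B ^ (n - 1 - q) * ℓ₀) (a + i * (B ^ (n - q) * ℓ₀))
        + dfct g B (B ^ (n - 1 - q) * ℓ₀) (a + i * (B ^ (n - q) * ℓ₀)))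
      ≤ 8 * L ^ 2 * (B ^ n * ℓ₀) / n := by
  have hℓ1 : (1 : ℝ) ≤ ℓ₀ := by exact_mod_cast hℓ
  have hn' : (0 : ℝ) < n := by exact_mod_cast hn
  -- levels
  set V : ℕ → ℝ := fun q => enrg f (B ^ (n - q) * ℓ₀) (B ^ q) a
    + enrg g (B ^ (n - q) * ℓ₀) (B ^ q) a with hV
  have hstep : ∀ q, q < n → V (q + 1) - V q
      = ∑ i ∈ range (B ^ q), (dfct f B (B ^ (n - 1 - q) * ℓ₀) (a + i * (B ^ (n - q) * ℓ₀))
        + dfct g B (B ^ (n - 1 - q) * ℓ₀) (a + i * (B ^ (n - q) * ℓ₀))) := by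
    intro q hq
    have e1 : n - (q + 1) = n - 1 - q := by omega
    have e2 : B ^ (n - q) * ℓ₀ = B * (B ^ (n - 1 - q) * ℓ₀) := by
      have : n - q = (n - 1 - q) + 1 := by omega
      rw [this, pow_succ]; ring
    have e3 : B ^ (q + 1) = B ^ q * B := pow_succ _ _
    have hfr := enrg_refine f B (B ^ (n - 1 - q) * ℓ₀) (B ^ q) a
    have hgr := enrg_refine g B (B ^ (n - 1 - q) * ℓ₀) (B ^ q) a
    rw [Finset.sum_add_distrib, e2, ← hfr, ← hgr]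
    simp only [hV]
    rw [e1, e2, e3]
    ring
  have htop : V n ≤ 8 * L ^ 2 * (B ^ n * ℓ₀) := by
    have key : ∀ F : ℕ → ℝ, LipFrom F L t₀ → enrg F (B ^ (n - n) * ℓ₀) (B ^ n) a
        ≤ 4 * L ^ 2 * (B ^ n * ℓ₀) := by
      intro F hF
      rw [Nat.sub_self, pow_zero, one_mul]
      unfold enrg
      have h1 : ∀ i ∈ range (B ^ n), (F (a + (i + 1) * ℓ₀) - F (a + i * ℓ₀)) ^ 2 / (ℓ₀ : ℝ)
          ≤ 4 * L ^ 2 * ℓ₀ := by
        intro i _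
        have h2 := hF (a + i * ℓ₀) (a + (i + 1) * ℓ₀) (by omega) (by nlinarith)
        have h3 : (((a + (i + 1) * ℓ₀ : ℕ) : ℝ) - ((a + i * ℓ₀ : ℕ) : ℝ)) = ℓ₀ := by
          push_cast; ring
        rw [h3] at h2
        have h4 : |F (a + (i + 1) * ℓ₀) - F (a + i * ℓ₀)| ≤ 2 * L * ℓ₀ := by nlinarith
        have h5 : (F (a + (i + 1) * ℓ₀) - F (a + i * ℓ₀)) ^ 2 ≤ (2 * L * ℓ₀) ^ 2 := by
          rw [← sq_abs (F (a + (i + 1) * ℓ₀) - F (a + i * ℓ₀))]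
          exact pow_le_pow_left₀ (abs_nonneg _) h4 2
        rw [div_le_iff₀ (by linarith)]
        calc _ ≤ (2 * L * ℓ₀) ^ 2 := h5
          _ = _ := by ring
      calc _ ≤ ∑ _i ∈ range (B ^ n), 4 * L ^ 2 * (ℓ₀ : ℝ) := Finset.sum_le_sum h1
        _ = _ := by rw [Finset.sum_const, Finset.card_range, nsmul_eq_mul]; push_cast; ring
    have h1 := key f hf
    have h2 := key g hg
    simp only [hV]
    linarith
  have h0 : 0 ≤ V 0 := add_nonneg (enrg_nonneg _ _ _ _) (enrg_nonneg _ _ _ _)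
  have htel : ∑ q ∈ range n, (V (q + 1) - V q) = V n - V 0 := Finset.sum_range_sub V n
  by_contra hcon
  push Not at hcon
  have h1 : ∑ q ∈ range n, (V (q + 1) - V q) > ∑ _q ∈ range n, 8 * L ^ 2 * (B ^ n * ℓ₀) / (n : ℝ) := by
    apply Finset.sum_lt_sum_of_nonempty (by simpa using hn.ne')
    intro q hq
    rw [Finset.mem_range] at hq
    rw [hstep q hq]
    exact hcon q hq
  rw [Finset.sum_const, Finset.card_range, nsmul_eq_mul, mul_div_cancel₀ _ hn'.ne', htel] at h1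
  linarith

/-- increment over one tower -/
lemma tower (f g : ℕ → ℝ) (L : ℝ) (t₀ : ℕ) (hL : 0 ≤ L) (hf : LipFrom f L t₀)
    (hg : LipFrom g L t₀) (ε θ η : ℝ) (hε : 0 < ε) (hη : 0 < η)
    (B ℓ₀ n a : ℕ) (hB : 0 < B) (hℓ : 0 < ℓ₀) (hn : 0 < n) (ha : t₀ ≤ a)
    (hBε : 8 * L ≤ ε * B)
    (hnη : (|θ| + 2 * L) * (8 * L ^ 2) ≤ η * ((ε / 2) ^ 2 * n))
    (hW : ∀ q, q < n → ∀ i, i < B ^ q →
      EpsLin f ε (a + i * (B ^ (n - q) * ℓ₀)) (B ^ (n - q) * ℓ₀) →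
      EpsLin g ε (a + i * (B ^ (n - q) * ℓ₀)) (B ^ (n - q) * ℓ₀) →
      θ * ((B ^ (n - q) * ℓ₀ : ℕ) : ℝ) ≤ f (a + (i + 1) * (B ^ (n - q) * ℓ₀))
        - f (a + i * (B ^ (n - q) * ℓ₀))) :
    (θ - η) * ((B ^ n * ℓ₀ : ℕ) : ℝ) ≤ f (a + B ^ n * ℓ₀) - f a := by
  obtain ⟨q, hq, hsum⟩ := exists_level f g L t₀ hL hf hg B ℓ₀ n a hB hℓ hn ha
  have hn' : (0 : ℝ) < n := by exact_mod_cast hn
  set κ : ℝ := (ε / 2) ^ 2 with hκ
  have hκ0 : 0 < κ := by positivity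
  set Λ : ℕ := B ^ (n - q) * ℓ₀ with hΛ
  have hΛ0 : 0 < Λ := Nat.mul_pos (Nat.pow_pos hB) hℓ
  have hΛ' : (0 : ℝ) < Λ := by exact_mod_cast hΛ0
  have hΛ1 : (1 : ℝ) ≤ Λ := by exact_mod_cast hΛ0
  have hℓq : 0 < B ^ (n - 1 - q) * ℓ₀ := Nat.mul_pos (Nat.pow_pos hB) hℓ
  have hΛB : Λ = B * (B ^ (n - 1 - q) * ℓ₀) := by
    rw [hΛ]
    have : n - q = (n - 1 - q) + 1 := by omega
    rw [this, pow_succ]; ring
  have htot : B ^ q * Λ = B ^ n * ℓ₀ := by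
    rw [hΛ, ← mul_assoc, ← pow_add]
    congr 2
    omega
  set d : ℕ → ℝ := fun i => dfct f B (B ^ (n - 1 - q) * ℓ₀) (a + i * Λ)
        + dfct g B (B ^ (n - 1 - q) * ℓ₀) (a + i * Λ) with hd
  have hd0 : ∀ i, 0 ≤ d i := fun i =>
    add_nonneg (dfct_nonneg _ _ _ _ hB hℓq) (dfct_nonneg _ _ _ _ hB hℓq)
  -- pointwise lower bound for the increments
  have hpt : ∀ i ∈ range (B ^ q),
      θ * Λ - (|θ| + 2 * L) * (d i / κ) ≤ f (a + (i + 1) * Λ) - f (a + i * Λ) := by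
    intro i hi
    rw [Finset.mem_range] at hi
    have hai : t₀ ≤ a + i * Λ := le_trans ha (Nat.le_add_right _ _)
    have hcoef : 0 ≤ |θ| + 2 * L := by positivity
    by_cases hgood : d i ≤ κ * Λ
    · have hfd : dfct f B (B ^ (n - 1 - q) * ℓ₀) (a + i * Λ)
          ≤ κ * (B * ((B ^ (n - 1 - q) * ℓ₀ : ℕ) : ℝ)) := by
        have h1 : dfct f B (B ^ (n - 1 - q) * ℓ₀) (a + i * Λ) ≤ d i := by
          have := dfct_nonneg g B (B ^ (n - 1 - q) * ℓ₀) (a + i * Λ) hB hℓq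
          simp only [hd]; linarith
        have h2 : (Λ : ℝ) = B * ((B ^ (n - 1 - q) * ℓ₀ : ℕ) : ℝ) := by
          rw [hΛB]; push_cast; ring
        rw [← h2]; linarith
      have hgd : dfct g B (B ^ (n - 1 - q) * ℓ₀) (a + i * Λ)
          ≤ κ * (B * ((B ^ (n - 1 - q) * ℓ₀ : ℕ) : ℝ)) := by
        have h1 : dfct g B (B ^ (n - 1 - q) * ℓ₀) (a + i * Λ) ≤ d i := by
          have := dfct_nonneg f B (B ^ (n - 1 - q) * ℓ₀) (a + i * Λ) hB hℓq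
          simp only [hd]; linarith
        have h2 : (Λ : ℝ) = B * ((B ^ (n - 1 - q) * ℓ₀ : ℕ) : ℝ) := by
          rw [hΛB]; push_cast; ring
        rw [← h2]; linarith
      have hfl := epsLin_of_dfct f L t₀ hL hf ε hε B (B ^ (n - 1 - q) * ℓ₀) (a + i * Λ) hB hℓq
        hai hBε hfd
      have hgl := epsLin_of_dfct g L t₀ hL hg ε hε B (B ^ (n - 1 - q) * ℓ₀) (a + i * Λ) hB hℓq
        hai hBε hgd
      rw [← hΛB] at hfl hgl
      have h3 := hW q hq i hi hfl hgl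
      have h4 : 0 ≤ (|θ| + 2 * L) * (d i / κ) := mul_nonneg hcoef (div_nonneg (hd0 i) hκ0.le)
      linarith
    · push Not at hgood
      have h5 : (Λ : ℝ) ≤ d i / κ := by
        rw [le_div_iff₀ hκ0]; linarith
      have h6 := hf (a + i * Λ) (a + (i + 1) * Λ) hai (by nlinarith)
      have h7 : (((a + (i + 1) * Λ : ℕ) : ℝ) - ((a + i * Λ : ℕ) : ℝ)) = Λ := by
        push_cast; ring
      rw [h7] at h6
      have h8 : -(2 * L * Λ) ≤ f (a + (i + 1) * Λ) - f (a + i * Λ) := by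
        have := neg_abs_le (f (a + (i + 1) * Λ) - f (a + i * Λ))
        nlinarith
      have h9 : (|θ| + 2 * L) * Λ ≤ (|θ| + 2 * L) * (d i / κ) :=
        mul_le_mul_of_nonneg_left h5 hcoef
      have h10 : θ * Λ ≤ |θ| * Λ := mul_le_mul_of_nonneg_right (le_abs_self θ) hΛ'.le
      nlinarith
  have hS := Finset.sum_le_sum hpt
  have htele : ∑ i ∈ range (B ^ q), (f (a + (i + 1) * Λ) - f (a + i * Λ))
      = f (a + B ^ n * ℓ₀) - f a := by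
    rw [sum_incr, htot]
  rw [htele, Finset.sum_sub_distrib, Finset.sum_const, Finset.card_range, nsmul_eq_mul,
    ← Finset.mul_sum, ← Finset.sum_div] at hS
  have hsum' : ∑ i ∈ range (B ^ q), d i ≤ 8 * L ^ 2 * (B ^ n * ℓ₀) / n := hsum
  have hD : ((B ^ q : ℕ) : ℝ) * (θ * Λ) = θ * ((B ^ n * ℓ₀ : ℕ) : ℝ) := by
    rw [← htot]; push_cast; ring
  rw [hD] at hS
  have hD0 : (0 : ℝ) ≤ ((B ^ n * ℓ₀ : ℕ) : ℝ) := Nat.cast_nonneg _
  have hlast : (|θ| + 2 * L) * ((∑ i ∈ range (B ^ q), d i) / κ)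
      ≤ η * ((B ^ n * ℓ₀ : ℕ) : ℝ) := by
    have h1 : (∑ i ∈ range (B ^ q), d i) / κ ≤ (8 * L ^ 2 * ((B ^ n * ℓ₀ : ℕ) : ℝ) / n) / κ := by
      apply div_le_div_of_nonneg_right _ hκ0.le
      have : ((B ^ n * ℓ₀ : ℕ) : ℝ) = (B : ℝ) ^ n * ℓ₀ := by push_cast; ring
      rw [this]
      exact hsum'
    calc (|θ| + 2 * L) * ((∑ i ∈ range (B ^ q), d i) / κ)
        ≤ (|θ| + 2 * L) * ((8 * L ^ 2 * ((B ^ n * ℓ₀ : ℕ) : ℝ) / n) / κ) :=
          mul_le_mul_of_nonneg_left h1 (by positivity)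
      _ = ((|θ| + 2 * L) * (8 * L ^ 2)) * ((B ^ n * ℓ₀ : ℕ) : ℝ) / (n * κ) := by
          field_simp
      _ ≤ (η * (κ * n)) * ((B ^ n * ℓ₀ : ℕ) : ℝ) / (n * κ) := by
          apply div_le_div_of_nonneg_right _ (by positivity)
          exact mul_le_mul_of_nonneg_right hnη hD0
      _ = _ := by field_simp
  linarith

/-- **Windows lemma.** -/
theorem windows (f g : ℕ → ℝ) (L : ℝ) (t₀ : ℕ) (hL : 0 ≤ L) (hf : LipFrom f L t₀)
    (hg : LipFrom g L t₀) (ε θ : ℝ) (hε : 0 < ε)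
    (hW : ∃ Λ₀ : ℕ, ∀ Λ : ℕ, Λ₀ ≤ Λ → ∃ a₀ : ℕ, ∀ a : ℕ, a₀ ≤ a →
      EpsLin f ε a Λ → EpsLin g ε a Λ → θ * (Λ : ℝ) ≤ f (a + Λ) - f a) :
    ∀ η : ℝ, 0 < η → ∃ t₁ : ℕ, ∃ C : ℝ, ∀ s t : ℕ, t₁ ≤ s → s ≤ t →
      (θ - η) * ((t : ℝ) - (s : ℝ)) - C ≤ f t - f s := by
  intro η hη
  obtain ⟨Λ₀, hΛ₀⟩ := hW
  -- choose `B`, `n`
  obtain ⟨B, hB⟩ : ∃ B : ℕ, 8 * L / ε < B := exists_nat_gt _
  have hBpos : 0 < B + 1 := Nat.succ_pos _
  have hBε : 8 * L ≤ ε * ((B + 1 : ℕ) : ℝ) := by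
    rw [div_lt_iff₀ hε] at hB
    push_cast
    nlinarith
  obtain ⟨n, hn⟩ : ∃ n : ℕ, (|θ| + 2 * L) * (8 * L ^ 2) / (η * (ε / 2) ^ 2) < n := exists_nat_gt _
  have hnpos : 0 < n + 1 := Nat.succ_pos _
  have hnη : (|θ| + 2 * L) * (8 * L ^ 2) ≤ η * ((ε / 2) ^ 2 * ((n + 1 : ℕ) : ℝ)) := by
    rw [div_lt_iff₀ (by positivity)] at hn
    push_cast
    nlinarith [mul_pos hη (pow_pos (half_pos hε) 2)]
  set ℓ₀ : ℕ := Λ₀ + 1 with hℓ₀
  have hℓpos : 0 < ℓ₀ := Nat.succ_pos _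
  set D : ℕ := (B + 1) ^ (n + 1) * ℓ₀ with hD
  have hDpos : 0 < D := Nat.mul_pos (Nat.pow_pos hBpos) hℓpos
  -- choose the common threshold
  choose! A hA using hΛ₀
  set t₁ : ℕ := t₀ + ∑ q ∈ range (n + 2), A ((B + 1) ^ q * ℓ₀) with ht₁
  have hAle : ∀ q, q ≤ n + 1 → A ((B + 1) ^ q * ℓ₀) ≤ t₁ := by
    intro q hq
    have : A ((B + 1) ^ q * ℓ₀) ≤ ∑ q ∈ range (n + 2), A ((B + 1) ^ q * ℓ₀) :=
      Finset.single_le_sum (f := fun q => A ((B + 1) ^ q * ℓ₀)) (fun _ _ => Nat.zero_le _)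
        (Finset.mem_range.2 (by omega))
    omega
  have htow : ∀ a, t₁ ≤ a → (θ - η) * (D : ℝ) ≤ f (a + D) - f a := by
    intro a ha
    refine tower f g L t₀ hL hf hg ε θ η hε hη (B + 1) ℓ₀ (n + 1) a hBpos hℓpos hnpos
      (by omega) hBε hnη ?_
    intro q hq i hi hfl hgl
    have h1 : Λ₀ ≤ (B + 1) ^ (n + 1 - q) * ℓ₀ := by
      have : 1 ≤ (B + 1) ^ (n + 1 - q) := Nat.one_le_pow _ _ hBpos
      nlinarith
    have h2 := hA ((B + 1) ^ (n + 1 - q) * ℓ₀) h1 (a + i * ((B + 1) ^ (n + 1 - q) * ℓ₀))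
      (by have := hAle (n + 1 - q) (by omega)
          omega) hfl hgl
    have e1 : a + (i + 1) * ((B + 1) ^ (n + 1 - q) * ℓ₀)
        = a + i * ((B + 1) ^ (n + 1 - q) * ℓ₀) + (B + 1) ^ (n + 1 - q) * ℓ₀ := by ring
    rw [e1]
    exact h2
  have hmul : ∀ M : ℕ, ∀ a, t₁ ≤ a → (θ - η) * ((M : ℝ) * D) ≤ f (a + M * D) - f a := by
    intro M
    induction M with
    | zero => intro a _; simp
    | succ M ih =>
      intro a ha
      have h1 := ih a ha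
      have h2 := htow (a + M * D) (by omega)
      have e1 : a + (M + 1) * D = a + M * D + D := by ring
      rw [e1]
      push_cast
      nlinarith
  refine ⟨t₁, |θ - η| * D + (L * D + L), ?_⟩
  intro s t hs hst
  obtain ⟨M, r, hr, hMr⟩ : ∃ M r : ℕ, r < D ∧ t - s = M * D + r :=
    ⟨(t - s) / D, (t - s) % D, Nat.mod_lt _ hDpos, by
      rw [mul_comm]; exact (Nat.div_add_mod (t - s) D).symm⟩
  have ht : t = s + M * D + r := by omega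
  have h1 := hmul M s hs
  have h2 := hf (s + M * D) t (by omega) (by omega)
  have h3 : (((t : ℕ) : ℝ) - ((s + M * D : ℕ) : ℝ)) = r := by rw [ht]; push_cast; ring
  rw [h3] at h2
  have hr' : (r : ℝ) ≤ D := by exact_mod_cast hr.le
  have hr0 : (0 : ℝ) ≤ r := Nat.cast_nonneg _
  have h4 : -(L * D + L) ≤ f t - f (s + M * D) := by
    have := neg_abs_le (f t - f (s + M * D))
    nlinarith
  have h5 : ((t : ℝ) - (s : ℝ)) = (M : ℝ) * D + r := by rw [ht]; push_cast; ring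
  have h6 : (θ - η) * r ≤ |θ - η| * D :=
    calc (θ - η) * r ≤ |θ - η| * r := mul_le_mul_of_nonneg_right (le_abs_self _) hr0
      _ ≤ _ := mul_le_mul_of_nonneg_left hr' (abs_nonneg _)
  rw [h5]
  nlinarith

end Pool.Agent.W_7d29a1_21z
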