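import Pool.Agent.W_7d29a1_21z.Windows

/-!
# Almost linear windows of polynomial length

If on all windows `[a, a + Λ]` with `δ a ≤ Λ ≤ κ a` (`κ` fixed, `δ` arbitrarily small, `a ≥ a₀(δ)`) on which `f` and `g` are
`ε`-linear the increment of `f` is at least `θ Λ`, then `f t - f s ≥ (θ - η) (t - s)` for `t ≥ (1 + η) s`, `s ≥ t₁(η)`.
-/

namespace Pool.Agent.W_7d29a1_21z

open Finset

/-- One step: `s ≤ t ≤ (1 + κ) s`, `t - s ≥ η s`. -/
theorem windowsPoly_step (f g : ℕ → ℝ) (L : ℝ) (t₀ : ℕ) (hL : 0 ≤ L) (hf : LipFrom f L t₀)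
    (hg : LipFrom g L t₀) (ε θ κ : ℝ) (hε : 0 < ε) (hκ : 0 < κ)
    (hW : ∀ δ : ℝ, 0 < δ → ∃ a₀ : ℕ, ∀ a : ℕ, a₀ ≤ a → ∀ Λ : ℕ, δ * a ≤ Λ → (Λ : ℝ) ≤ κ * a →
      EpsLin f ε a Λ → EpsLin g ε a Λ → θ * (Λ : ℝ) ≤ f (a + Λ) - f a) :
    ∀ η : ℝ, 0 < η → ∃ t₁ : ℕ, ∀ s t : ℕ, t₁ ≤ s → η * s ≤ (t : ℝ) - s → (t : ℝ) - s ≤ κ * s →
      (θ - η) * ((t : ℝ) - (s : ℝ)) ≤ f t - f s := by
  intro η hη
  -- choose `B`, `n`
  obtain ⟨B, hB⟩ : ∃ B : ℕ, 8 * L / ε < B := exists_nat_gt _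
  have hBpos : 0 < B + 1 := Nat.succ_pos _
  have hBε : 8 * L ≤ ε * ((B + 1 : ℕ) : ℝ) := by
    rw [div_lt_iff₀ hε] at hB
    push_cast
    nlinarith
  obtain ⟨n, hn⟩ : ∃ n : ℕ, (|θ| + 2 * L) * (8 * L ^ 2) / (η / 2 * (ε / 2) ^ 2) < n := exists_nat_gt _
  have hnpos : 0 < n + 1 := Nat.succ_pos _
  have hnη : (|θ| + 2 * L) * (8 * L ^ 2) ≤ η / 2 * ((ε / 2) ^ 2 * ((n + 1 : ℕ) : ℝ)) := by
    rw [div_lt_iff₀ (by positivity)] at hn
    push_cast
    nlinarith [mul_pos (half_pos hη) (pow_pos (half_pos hε) 2)]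
  set P : ℕ := (B + 1) ^ (n + 1) with hP
  have hPpos : 0 < P := Nat.pow_pos hBpos
  have hP' : (0 : ℝ) < P := by exact_mod_cast hPpos
  have hP1 : (1 : ℝ) ≤ P := by exact_mod_cast hPpos
  -- the smallest window
  set δ : ℝ := η / (2 * P * (1 + κ)) with hδ
  have hδ0 : 0 < δ := by positivity
  obtain ⟨a₀, ha₀⟩ := hW δ hδ0
  obtain ⟨s₁, hs₁⟩ : ∃ s₁ : ℕ, 2 * (P : ℝ) / η < s₁ := exists_nat_gt _
  obtain ⟨s₂, hs₂⟩ : ∃ s₂ : ℕ, 2 * ((L * P + L) + |θ - η / 2| * P) / (η * η) < s₂ := exists_nat_gt _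
  refine ⟨a₀ + t₀ + s₁ + s₂, fun s t hs h1 h2 => ?_⟩
  have hss₁ : (s₁ : ℝ) ≤ s := by
    have : s₁ ≤ s := by omega
    exact_mod_cast this
  have hss₂ : (s₂ : ℝ) ≤ s := by
    have : s₂ ≤ s := by omega
    exact_mod_cast this
  have hs0 : (0 : ℝ) < s := by
    have : 2 * (P : ℝ) / η < s := lt_of_lt_of_le hs₁ hss₁
    exact lt_trans (by positivity) this
  have hst : s ≤ t := by
    have : (s : ℝ) ≤ t := by nlinarith
    exact_mod_cast this
  -- the unit of the grid
  set M : ℕ := (t - s) / P with hM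
  have hdm := Nat.div_add_mod (t - s) P
  have hmod := Nat.mod_lt (t - s) hPpos
  have hMP : P * M ≤ t - s := by rw [hM]; omega
  have hts : ((t - s : ℕ) : ℝ) = (t : ℝ) - s := by rw [Nat.cast_sub hst]
  have hrest : ((t - s : ℕ) : ℝ) < P * M + P := by
    have : t - s < P * M + P := by rw [hM]; omega
    exact_mod_cast this
  have hbig : 2 * (P : ℝ) ≤ (t : ℝ) - s := by
    have h3 : 2 * (P : ℝ) / η ≤ s := (hs₁.le).trans hss₁
    rw [div_le_iff₀ hη] at h3
    linarith [mul_comm η (s : ℝ)]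
  have hMhalf : ((t : ℝ) - s) / 2 ≤ P * M := by
    rw [hts] at hrest
    linarith
  have hMpos : 0 < M := by
    rcases Nat.eq_zero_or_pos M with h | h
    · rw [h] at hMhalf
      simp only [Nat.cast_zero, mul_zero] at hMhalf
      linarith
    · exact h
  have htow : (θ - η / 2) * (((B + 1) ^ (n + 1) * M : ℕ) : ℝ) ≤ f (s + (B + 1) ^ (n + 1) * M) - f s := by
    refine tower f g L t₀ hL hf hg ε θ (η / 2) hε (half_pos hη) (B + 1) M (n + 1) s hBpos hMpos hnpos
      (by omega) hBε hnη ?_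
    intro q hq i hi hfl hgl
    have hlen : ((((B + 1) ^ (n + 1 - q) * M : ℕ)) : ℝ) ≤ (t : ℝ) - s := by
      have h3 : (B + 1) ^ (n + 1 - q) * M ≤ P * M :=
        Nat.mul_le_mul_right _ (Nat.pow_le_pow_right hBpos (by omega))
      have h4 : (B + 1) ^ (n + 1 - q) * M ≤ t - s := h3.trans hMP
      rw [← hts]
      exact_mod_cast h4
    have hpos : s + i * ((B + 1) ^ (n + 1 - q) * M) ≤ t := by
      have h3 : i * ((B + 1) ^ (n + 1 - q) * M) ≤ (B + 1) ^ q * ((B + 1) ^ (n + 1 - q) * M) :=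
        Nat.mul_le_mul_right _ hi.le
      have h4 : (B + 1) ^ q * ((B + 1) ^ (n + 1 - q) * M) = P * M := by
        rw [← mul_assoc, ← pow_add, hP]
        congr 2
        omega
      omega
    have hpos' : ((s + i * ((B + 1) ^ (n + 1 - q) * M) : ℕ) : ℝ) ≤ t := by exact_mod_cast hpos
    have hM1 : (M : ℝ) ≤ (((B + 1) ^ (n + 1 - q) * M : ℕ) : ℝ) := by
      have : 1 * M ≤ (B + 1) ^ (n + 1 - q) * M := Nat.mul_le_mul_right _ (Nat.one_le_pow _ _ hBpos)
      have h3 : M ≤ (B + 1) ^ (n + 1 - q) * M := by omega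
      exact_mod_cast h3
    have h3 : δ * ((s + i * ((B + 1) ^ (n + 1 - q) * M) : ℕ) : ℝ) ≤ (((B + 1) ^ (n + 1 - q) * M : ℕ) : ℝ) := by
      have h4 : δ * ((s + i * ((B + 1) ^ (n + 1 - q) * M) : ℕ) : ℝ) ≤ δ * ((1 + κ) * s) :=
        mul_le_mul_of_nonneg_left (hpos'.trans (by linarith)) hδ0.le
      have h5 : δ * ((1 + κ) * s) = η * s / (2 * P) := by
        rw [hδ]
        field_simp
      have h6 : η * s / (2 * P) ≤ M := by
        rw [div_le_iff₀ (by positivity)]
        nlinarith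
      linarith
    have h4 : (((B + 1) ^ (n + 1 - q) * M : ℕ) : ℝ) ≤ κ * ((s + i * ((B + 1) ^ (n + 1 - q) * M) : ℕ) : ℝ) := by
      have h5 : (s : ℝ) ≤ ((s + i * ((B + 1) ^ (n + 1 - q) * M) : ℕ) : ℝ) := by
        exact_mod_cast Nat.le_add_right _ _
      have h6 := mul_le_mul_of_nonneg_left h5 hκ.le
      linarith
    have h5 := ha₀ (s + i * ((B + 1) ^ (n + 1 - q) * M)) (by omega) ((B + 1) ^ (n + 1 - q) * M) h3 h4 hfl hgl
    have e1 : s + (i + 1) * ((B + 1) ^ (n + 1 - q) * M)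
        = s + i * ((B + 1) ^ (n + 1 - q) * M) + (B + 1) ^ (n + 1 - q) * M := by ring
    rw [e1]
    exact h5
  rw [← hP] at htow
  have h3 := hf (s + P * M) t (by omega) (by omega)
  have h4 : ((t : ℕ) : ℝ) - ((s + P * M : ℕ) : ℝ) ≤ P := by
    push_cast
    rw [hts] at hrest
    linarith
  have h5 : -(L * P + L) ≤ f t - f (s + P * M) := by
    have h6 := neg_abs_le (f t - f (s + P * M))
    have h7 := mul_le_mul_of_nonneg_left h4 hL
    linarith
  have hPM : ((P * M : ℕ) : ℝ) = P * M := by push_cast; ring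
  rw [hPM] at htow
  -- `(θ - η/2) P M ≥ (θ - η/2) (t - s) - |θ - η/2| P`
  have h6 : (θ - η / 2) * ((t : ℝ) - s) - |θ - η / 2| * P ≤ (θ - η / 2) * (P * M) := by
    have h7 : (θ - η / 2) * ((t : ℝ) - s) - (θ - η / 2) * (P * M) = (θ - η / 2) * (((t : ℝ) - s) - P * M) := by ring
    have h8 : 0 ≤ ((t : ℝ) - s) - P * M := by
      have : ((P * M : ℕ) : ℝ) ≤ ((t - s : ℕ) : ℝ) := by exact_mod_cast hMP
      rw [hts, hPM] at this
      linarith
    have h9 : ((t : ℝ) - s) - P * M ≤ P := by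
      rw [hts] at hrest
      linarith
    have h10 : (θ - η / 2) * (((t : ℝ) - s) - P * M) ≤ |θ - η / 2| * P :=
      (mul_le_mul_of_nonneg_right (le_abs_self _) h8).trans (mul_le_mul_of_nonneg_left h9 (abs_nonneg _))
    linarith
  have h7 : (L * P + L) + |θ - η / 2| * P ≤ η / 2 * ((t : ℝ) - s) := by
    have h8 : 2 * ((L * P + L) + |θ - η / 2| * P) / (η * η) ≤ s := hs₂.le.trans hss₂
    rw [div_le_iff₀ (by positivity)] at h8
    nlinarith
  nlinarith

/-- **Windows lemma, polynomial windows.** -/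
theorem windowsPoly (f g : ℕ → ℝ) (L : ℝ) (t₀ : ℕ) (hL : 0 ≤ L) (hf : LipFrom f L t₀)
    (hg : LipFrom g L t₀) (ε θ κ : ℝ) (hε : 0 < ε) (hκ : 0 < κ)
    (hW : ∀ δ : ℝ, 0 < δ → ∃ a₀ : ℕ, ∀ a : ℕ, a₀ ≤ a → ∀ Λ : ℕ, δ * a ≤ Λ → (Λ : ℝ) ≤ κ * a →
      EpsLin f ε a Λ → EpsLin g ε a Λ → θ * (Λ : ℝ) ≤ f (a + Λ) - f a) :
    ∀ η : ℝ, 0 < η → ∃ t₁ : ℕ, ∀ s t : ℕ, t₁ ≤ s → (1 + η) * s ≤ (t : ℝ) →
      (θ - η) * ((t : ℝ) - (s : ℝ)) ≤ f t - f s := by
  intro η hη
  -- small steps: `s ↦ s + ⌊κ' s⌋`, `κ' = min κ 1`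
  set κ' : ℝ := min κ 1 with hκ'
  have hκ'0 : 0 < κ' := lt_min hκ one_pos
  have hκ'1 : κ' ≤ 1 := min_le_right _ _
  have hκ'κ : κ' ≤ κ := min_le_left _ _
  -- the loss `η'` of a step: relative to `t - s`
  set Cc : ℝ := |θ| + 2 * L + η + 1 with hCc
  have hCc0 : 0 < Cc := by positivity
  set η' : ℝ := min (min (η / 4) (κ' / 4)) (η * min η 1 / (16 * Cc)) with hη'
  have hm0 : 0 < min η 1 := lt_min hη one_pos
  have hη'0 : 0 < η' := lt_min (lt_min (by positivity) (by positivity)) (by positivity)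
  have hη'1 : η' ≤ η / 4 := (min_le_left _ _).trans (min_le_left _ _)
  have hη'2 : η' ≤ κ' / 4 := (min_le_left _ _).trans (min_le_right _ _)
  have hη'3 : η' ≤ η * min η 1 / (16 * Cc) := min_le_right _ _
  obtain ⟨t₁, ht₁⟩ := windowsPoly_step f g L t₀ hL hf hg ε θ κ hε hκ hW η' hη'0
  obtain ⟨t₂, ht₂⟩ : ∃ t₂ : ℕ, 4 / κ' < t₂ := exists_nat_gt _
  obtain ⟨t₃, ht₃⟩ : ∃ t₃ : ℕ, 1 / η' < t₃ := exists_nat_gt _
  set T := t₁ + t₀ + t₂ + t₃ + 1 with hT
  -- claim: for all `t ≥ s ≥ T`: `(θ - η') (t - s) - Cc η' t ≤ f t - f s`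
  have hclaim : ∀ t s : ℕ, T ≤ s → s ≤ t →
      (θ - η') * ((t : ℝ) - s) - 2 * Cc * η' * t ≤ f t - f s := by
    intro t
    induction t using Nat.strong_induction_on with
    | _ t ih =>
      intro s hs hst
      have hst' : (s : ℝ) ≤ t := by exact_mod_cast hst
      have hsT : (T : ℝ) ≤ s := by exact_mod_cast hs
      have hT1 : (1 : ℝ) ≤ s := by
        have : 1 ≤ s := by omega
        exact_mod_cast this
      have ht₂' : (t₂ : ℝ) ≤ s := by
        have : t₂ ≤ s := by omega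
        exact_mod_cast this
      have ht₃' : (t₃ : ℝ) ≤ s := by
        have : t₃ ≤ s := by omega
        exact_mod_cast this
      have hη's : 1 ≤ η' * s := by
        have : 1 / η' ≤ s := ht₃.le.trans ht₃'
        rw [div_le_iff₀ hη'0] at this
        linarith [mul_comm η' (s : ℝ)]
      have hs0 : (0 : ℝ) < s := by linarith
      rcases le_or_gt ((t : ℝ) - s) (η' * s) with h1 | h1
      · -- very short: Lipschitz
        have h2 := hf s t (by omega) hst
        have h3 := neg_abs_le (f t - f s)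
        have h4 : L * ((t : ℝ) - s) + L ≤ 2 * L * (η' * s) := by nlinarith
        have h5 : (θ - η') * ((t : ℝ) - s) ≤ |θ| * (η' * s) := by
          have h6 : (θ - η') * ((t : ℝ) - s) ≤ |θ| * ((t : ℝ) - s) := by
            apply mul_le_mul_of_nonneg_right _ (by linarith)
            linarith [le_abs_self θ]
          exact h6.trans (mul_le_mul_of_nonneg_left h1 (abs_nonneg _))
        have h6 : (|θ| + 2 * L) * (η' * s) ≤ 2 * Cc * η' * t := by
          have h7 : (|θ| + 2 * L) ≤ 2 * Cc := by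
            rw [hCc]
            have := abs_nonneg θ
            linarith
          calc (|θ| + 2 * L) * (η' * s) ≤ 2 * Cc * (η' * s) :=
                mul_le_mul_of_nonneg_right h7 (by positivity)
            _ ≤ 2 * Cc * (η' * t) := by gcongr
            _ = _ := by ring
        linarith
      · rcases le_or_gt ((t : ℝ) - s) (κ * s) with h2 | h2
        · have h3 := ht₁ s t (by omega) h1.le h2
          have h4 : 0 ≤ 2 * Cc * η' * t := by positivity
          linarith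
        · -- long: go back by a factor from `t`
          -- choose `u` with `u ≈ t / (1 + κ')`
          set u : ℕ := ⌈(t : ℝ) / (1 + κ')⌉₊ with hu
          have hu1 : (t : ℝ) / (1 + κ') ≤ u := Nat.le_ceil _
          have hu2 : (u : ℝ) < (t : ℝ) / (1 + κ') + 1 := Nat.ceil_lt_add_one (by positivity)
          have hκs : κ' * s ≤ κ * s := mul_le_mul_of_nonneg_right hκ'κ hs0.le
          have hsu : (s : ℝ) ≤ u := by
            refine le_trans ?_ hu1
            rw [le_div_iff₀ (by positivity)]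
            linarith
          have hκt : 4 ≤ κ' * t := by
            have h3 : 4 / κ' ≤ s := ht₂.le.trans ht₂'
            rw [div_le_iff₀ hκ'0] at h3
            nlinarith
          have hut : (u : ℝ) < t := by
            have h3 : (t : ℝ) / (1 + κ') + 1 ≤ t := by
              rw [← le_sub_iff_add_le, div_le_iff₀ (by positivity)]
              nlinarith
            linarith
          have hsu' : s ≤ u := by exact_mod_cast hsu
          have hut' : u < t := by exact_mod_cast hut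
          have h3 := ih u hut' s hs hsu'
          have h4 : η' * u ≤ (t : ℝ) - u := by
            -- `t - u ≥ t κ'/(1+κ') - 1 ≥ κ'/4 t`
            have h5 : (t : ℝ) / (1 + κ') + 1 ≤ t - κ' / 4 * t := by
              have h6 : (t : ℝ) / (1 + κ') ≤ t - κ' / 2 * t := by
                rw [div_le_iff₀ (by positivity)]
                have : 0 ≤ (t : ℝ) * (κ' * (1 - κ')) := by
                  have := sub_nonneg.2 hκ'1
                  positivity
                nlinarith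
              linarith
            have h6 : η' * u ≤ κ' / 4 * t := by
              calc η' * u ≤ κ' / 4 * u := mul_le_mul_of_nonneg_right hη'2 (Nat.cast_nonneg _)
                _ ≤ κ' / 4 * t := mul_le_mul_of_nonneg_left hut.le (by positivity)
            linarith
          have h5 : (t : ℝ) - u ≤ κ * u := by
            have h6 : (t : ℝ) ≤ (1 + κ') * u := by
              rw [div_le_iff₀ (by positivity)] at hu1
              linarith
            have h7 : κ' * u ≤ κ * u := mul_le_mul_of_nonneg_right hκ'κ (Nat.cast_nonneg _)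
            linarith
          have h6 := ht₁ u t (by omega) h4 h5
          have h7 : 2 * Cc * η' * u ≤ 2 * Cc * η' * t := mul_le_mul_of_nonneg_left hut.le (by positivity)
          linarith
  refine ⟨T, fun s t hs hst => ?_⟩
  have hs0 : (0 : ℝ) ≤ s := Nat.cast_nonneg _
  have hst' : (s : ℝ) ≤ t := by nlinarith
  have hst'' : s ≤ t := by exact_mod_cast hst'
  have h1 := hclaim t s hs hst''
  -- `2 Cc η' t ≤ (η / 2) (t - s)` because `t - s ≥ (min η 1 / 2) t`
  have h2 : min η 1 / 2 * t ≤ (t : ℝ) - s := by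
    have h3 : min η 1 * s ≤ η * s := mul_le_mul_of_nonneg_right (min_le_left _ _) hs0
    have h4 : (1 + min η 1) * s ≤ t := by linarith
    have h5 : min η 1 ≤ 1 := min_le_right _ _
    have h6 : min η 1 * ((t : ℝ) - s) ≤ 1 * ((t : ℝ) - s) := mul_le_mul_of_nonneg_right h5 (by linarith)
    nlinarith
  have h3 : 2 * Cc * η' * t ≤ η / 2 * ((t : ℝ) - s) := by
    have h4 : 2 * Cc * η' ≤ η * min η 1 / 8 := by
      have h5 : 2 * Cc * η' ≤ 2 * Cc * (η * min η 1 / (16 * Cc)) := mul_le_mul_of_nonneg_left hη'3 (by positivity)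
      have h6 : 2 * Cc * (η * min η 1 / (16 * Cc)) = η * min η 1 / 8 := by field_simp; ring
      linarith
    have ht0 : (0 : ℝ) ≤ t := Nat.cast_nonneg _
    calc 2 * Cc * η' * t ≤ η * min η 1 / 8 * t := mul_le_mul_of_nonneg_right h4 ht0
      _ = η / 4 * (min η 1 / 2 * t) := by ring
      _ ≤ η / 4 * ((t : ℝ) - s) := mul_le_mul_of_nonneg_left h2 (by positivity)
      _ ≤ _ := by
        apply mul_le_mul_of_nonneg_right _ (by linarith)
        linarith
  have h4 : η' * ((t : ℝ) - s) ≤ η / 4 * ((t : ℝ) - s) := mul_le_mul_of_nonneg_right hη'1 (by linarith)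
  have h5 : 0 ≤ η / 4 * ((t : ℝ) - s) := mul_nonneg (by positivity) (by linarith)
  linarith

end Pool.Agent.W_7d29a1_21z
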